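import Pool.Agent.helper60.DB.SpecC

/-! # Row bc:LC -/

namespace Pool.Agent.helper60.DB

open Polynomial Finset

theorem LC_Mn {R : Type*} [CommRing R] (N D : R[X]) (m : ℕ) (hN : N.natDegree ≤ m) (hD : D.natDegree ≤ m) :
    (Mn N D).natDegree ≤ 2 * m ∧ (Mn N D).coeff (2 * m) = N.coeff m * D.coeff m := by
  have h1 : (X * derivative N : R[X]).natDegree ≤ m := by
    rw [natDegree_le_iff_coeff_eq_zero] at hN ⊢
    intro j hj
    cases j with
    | zero => exact absurd hj (Nat.not_lt_zero _)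
    | succ j => rw [coeff_X_mul, coeff_derivative, hN _ hj, zero_mul]
  have h2 : (X * derivative D : R[X]).natDegree ≤ m := by
    rw [natDegree_le_iff_coeff_eq_zero] at hD ⊢
    intro j hj
    cases j with
    | zero => exact absurd hj (Nat.not_lt_zero _)
    | succ j => rw [coeff_X_mul, coeff_derivative, hD _ hj, zero_mul]
  have h1c : ∀ F : R[X], (X * derivative F : R[X]).coeff m = (m : R) * F.coeff m := by
    intro F
    cases m with
    | zero => simp
    | succ j => rw [coeff_X_mul, coeff_derivative]; push_cast; ring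
  have e : Mn N D = N * D + C 2 * ((X * derivative N) * D - N * (X * derivative D)) := by
    unfold Mn
    have : (C 2 : R[X]) = 2 := C_ofNat 2
    rw [this]; ring
  have hND : (N * D).natDegree ≤ 2 * m := by
    rw [two_mul]; exact natDegree_mul_le_of_le hN hD
  have hA : ((X * derivative N) * D).natDegree ≤ 2 * m := by
    rw [two_mul]; exact natDegree_mul_le_of_le h1 hD
  have hB : (N * (X * derivative D)).natDegree ≤ 2 * m := by
    rw [two_mul]; exact natDegree_mul_le_of_le hN h2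
  refine ⟨?_, ?_⟩
  · rw [e]
    refine natDegree_add_le_of_degree_le hND ?_
    exact (natDegree_C_mul_le _ _).trans ((natDegree_sub_le_of_le hA hB).trans (max_self _).le)
  · rw [e, coeff_add, coeff_C_mul, coeff_sub, two_mul, coeff_mul_add_eq_of_natDegree_le hN hD,
      coeff_mul_add_eq_of_natDegree_le h1 hD, coeff_mul_add_eq_of_natDegree_le hN h2, h1c, h1c]
    ring

theorem LC_sq {R : Type*} [CommRing R] (F : R[X]) (n : ℕ) (h : F.natDegree ≤ n) :
    (F ^ 2).natDegree ≤ 2 * n ∧ (F ^ 2).coeff (2 * n) = F.coeff n ^ 2 := by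
  refine ⟨?_, ?_⟩
  · rw [pow_two, two_mul]; exact natDegree_mul_le_of_le h h
  · rw [pow_two, two_mul, coeff_mul_add_eq_of_natDegree_le h h, pow_two]

theorem LC : LC_stmt := by
  intro K _ A B A' B' π N D m hN hD hNm hq
  obtain ⟨hM, hMc⟩ := LC_Mn N D m hN hD
  obtain ⟨hM2, hM2c⟩ := LC_sq (Mn N D) (2 * m) hM
  obtain ⟨hN2, hN2c⟩ := LC_sq N m hN
  obtain ⟨hD2, hD2c⟩ := LC_sq D m hD
  obtain ⟨hN4, hN4c⟩ := LC_sq (N ^ 2) (2 * m) hN2
  obtain ⟨hD4, hD4c⟩ := LC_sq (D ^ 2) (2 * m) hD2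
  have hzero : ∀ (F : K[X]) (a b : ℕ), F.natDegree ≤ a → a < b → F.coeff b = 0 := by
    intro F a b h1 h2
    exact coeff_eq_zero_of_natDegree_lt (lt_of_le_of_lt h1 h2)
  have hc : ∀ F : K[X], (X ^ 2 * F : K[X]).coeff (2 * (2 * m) + 2) = F.coeff (2 * (2 * m)) := by
    intro F
    rw [mul_comm, coeff_mul_X_pow]
  have hc1 : ∀ F : K[X], (X * F : K[X]).coeff (2 * (2 * m) + 2) = F.coeff (2 * (2 * m) + 1) := by
    intro F
    rw [show 2 * (2 * m) + 2 = (2 * (2 * m) + 1) + 1 by omega, coeff_X_mul]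
  have eL : qf A B * Mn N D ^ 2 = Mn N D ^ 2 + C A * (X * Mn N D ^ 2) + C B * (X ^ 2 * Mn N D ^ 2) := by
    unfold qf; ring
  have eR : C (π ^ 2) * (D ^ 4 + C A' * X * N ^ 2 * D ^ 2 + C B' * X ^ 2 * N ^ 4)
      = C (π ^ 2) * ((D ^ 2) ^ 2 + C A' * (X * (N ^ 2 * D ^ 2)) + C B' * (X ^ 2 * (N ^ 2) ^ 2)) := by ring
  have hND : (N ^ 2 * D ^ 2).natDegree ≤ 2 * (2 * m) := by
    rw [two_mul (2 * m)]; exact natDegree_mul_le_of_le hN2 hD2
  have key := congrArg (fun F : K[X] => F.coeff (2 * (2 * m) + 2)) (eL.symm.trans (hq.trans eR))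
  simp only [coeff_add, coeff_C_mul, hc, hc1] at key
  rw [hzero _ _ _ hM2 (by omega : 2 * (2 * m) < 2 * (2 * m) + 2),
    hzero _ _ _ hM2 (by omega : 2 * (2 * m) < 2 * (2 * m) + 1),
    hzero _ _ _ hD4 (by omega : 2 * (2 * m) < 2 * (2 * m) + 2),
    hzero _ _ _ hND (by omega : 2 * (2 * m) < 2 * (2 * m) + 1), hM2c, hN4c, hMc, hN2c] at key
  have h2 : N.coeff m ^ 2 * (B * D.coeff m ^ 2) = N.coeff m ^ 2 * (π ^ 2 * B' * N.coeff m ^ 2) := by
    linear_combination key
  exact mul_left_cancel₀ (pow_ne_zero 2 hNm) h2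

end Pool.Agent.helper60.DB
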