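import Pool.Agent.helper60.DB.SpecM

/-! Row bm:MD. -/

namespace Pool.Agent.helper60.DB

open Polynomial

lemma MD_mul {R : Type*} [CommRing R] (f g : PowerSeries R) :
    EE (f * g) = f * EE g + g * EE f := by
  unfold EE
  rw [Derivation.leibniz]
  simp only [smul_eq_mul]
  ring

lemma MD_add {R : Type*} [CommRing R] (f g : PowerSeries R) : EE (f + g) = EE f + EE g := by
  unfold EE
  rw [map_add]
  ring

lemma MD_C {R : Type*} [CommRing R] (a : R) : EE (PowerSeries.C a : PowerSeries R) = 0 := by
  unfold EE
  rw [PowerSeries.derivative_C, mul_zero]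

lemma MD_one {R : Type*} [CommRing R] : EE (1 : PowerSeries R) = 0 := by
  have h := MD_C (1 : R)
  rwa [map_one] at h

lemma MD_X {R : Type*} [CommRing R] : EE (PowerSeries.X : PowerSeries R) = 2 * PowerSeries.X := by
  unfold EE
  rw [PowerSeries.derivative_X, mul_one]

lemma MD_sq {R : Type*} [CommRing R] (f : PowerSeries R) : EE (f ^ 2) = 2 * f * EE f := by
  rw [pow_two, MD_mul]
  ring

theorem MD : MD_stmt := by
  intro R _ _ _ A' B' α y g u hM
  have h := congrArg EE hM.cur
  simp only [MD_add, MD_mul, MD_C, MD_one, MD_X, MD_sq, mul_zero, add_zero, zero_add] at h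
  have hode := hM.ode
  have hu : u ≠ 0 := by
    intro h0
    have h1 := hM.cu
    rw [h0, map_zero] at h1
    exact zero_ne_one h1
  have h2 : (2 : PowerSeries R) ≠ 0 := by
    intro h0
    have h1 := congrArg PowerSeries.constantCoeff h0
    rw [map_ofNat, map_zero] at h1
    exact two_ne_zero h1
  have key : (2 * u) * (y * EE u) = (2 * u) * (PowerSeries.C α *
      (PowerSeries.X * (PowerSeries.C A' * g + 2 * PowerSeries.C B' * PowerSeries.X * g ^ 3))) := by
    linear_combination y * h + (PowerSeries.C A' + 2 * PowerSeries.C B' * (PowerSeries.X * g ^ 2)) *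
      (2 * PowerSeries.X * g) * hode
  exact mul_left_cancel₀ (mul_ne_zero h2 hu) key

end Pool.Agent.helper60.DB
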