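import Pool.Agent.helper60.DB.SpecF

/-! # Row bf:NG -/

namespace Pool.Agent.helper60.DB

open Polynomial Finset Pool.Agent.helper60.DK

theorem NG (hIZ : IZ_stmt) (hTW : TW_stmt) (hNE : NE_stmt) : NG_stmt := by
  intro R k _ _ _ _ p m _ _ q hL hp7 hp11 hpm f v a b y w hf hv hqf hy hw hab hq0
  have hpP : p.Prime := Fact.out
  obtain ⟨hz, -⟩ := hIZ R k p q hL
  obtain ⟨K1, K2, K3, K4, -, R2, R3⟩ := hNE R f v y hf hv hy
  have h48 : ((48 : ℤ) : R) = 48 := by norm_num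
  -- divisibility facts
  have dvd_small : ∀ n : ℕ, n ≠ 0 → (∀ r : ℕ, r.Prime → r ∣ n → r = 2 ∨ r = 3 ∨ r = 11) → ¬ (p : ℤ) ∣ (n : ℤ) := by
    intro n _ h1 h2
    have h3 : p ∣ n := by exact_mod_cast h2
    rcases h1 p hpP h3 with h | h | h <;> omega
  have h3p : ∀ r : ℕ, r.Prime → r ∣ 3 → r = 3 := fun r hr h => (Nat.prime_dvd_prime_iff_eq hr Nat.prime_three).mp h
  have h2p : ∀ r : ℕ, r.Prime → r ∣ 2 → r = 2 := fun r hr h => (Nat.prime_dvd_prime_iff_eq hr Nat.prime_two).mp h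
  have h11p : ∀ r : ℕ, r.Prime → r ∣ 11 → r = 11 := fun r hr h =>
    (Nat.prime_dvd_prime_iff_eq hr (by norm_num)).mp h
  have n48 : ¬ (p : ℤ) ∣ 48 := by
    refine dvd_small 48 (by norm_num) fun r hr h => ?_
    rw [show 48 = 2 ^ 4 * 3 by norm_num] at h
    rcases (Nat.Prime.dvd_mul hr).mp h with h | h
    · exact Or.inl (h2p r hr (hr.dvd_of_dvd_pow h))
    · exact Or.inr (Or.inl (h3p r hr h))
  have n9 : ¬ (p : ℤ) ∣ 9 := by
    refine dvd_small 9 (by norm_num) fun r hr h => ?_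
    rw [show 9 = 3 ^ 2 by norm_num] at h
    exact Or.inr (Or.inl (h3p r hr (hr.dvd_of_dvd_pow h)))
  have n99 : ¬ (p : ℤ) ∣ 99 := by
    refine dvd_small 99 (by norm_num) fun r hr h => ?_
    rw [show 99 = 3 ^ 2 * 11 by norm_num] at h
    rcases (Nat.Prime.dvd_mul hr).mp h with h | h
    · exact Or.inr (Or.inl (h3p r hr (hr.dvd_of_dvd_pow h)))
    · exact Or.inr (Or.inr (h11p r hr h))
  have q9 : q (((9 : ℤ) : R)) ≠ 0 := fun h => n9 ((hz 9).mp h)
  have q99 : q (((99 : ℤ) : R)) ≠ 0 := fun h => n99 ((hz 99).mp h)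
  have e9 : ((12 - 3 * f) ^ 2 - 4 * 48) * ((-(9 + 3 * f)) ^ 2 - 4 * 48) = ((9 : ℤ) : R) := by
    push_cast
    linear_combination (81 * f ^ 2 - 81 * f - 5319) * hf
  have e99 : (12 - 3 * f) * (-(9 + 3 * f)) = -((99 : ℤ) : R) := by
    push_cast
    linear_combination 9 * hf
  have hA : q ((12 - 3 * f) ^ 2 - 4 * 48) ≠ 0 := by
    intro h
    apply q9
    rw [← e9, map_mul, h, zero_mul]
  have hA' : q ((-(9 + 3 * f)) ^ 2 - 4 * 48) ≠ 0 := by
    intro h
    apply q9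
    rw [← e9, map_mul, h, mul_zero]
  have hA0 : q (-(9 + 3 * f)) ≠ 0 := by
    intro h
    apply q99
    have := congrArg q e99
    rw [map_mul, h, mul_zero, map_neg] at this
    exact (neg_eq_zero.mp this.symm)
  have hodd : Odd (1 * a + 1 * b) := by
    have hpo : Odd (p : ℤ) := by
      rw [hpm]; push_cast; exact ⟨m, rfl⟩
    rw [hab] at hpo
    rcases Int.even_or_odd a with ha | ha <;> rcases Int.even_or_odd b with hb | hb
    · exfalso
      obtain ⟨a', rfl⟩ := ha; obtain ⟨b', rfl⟩ := hb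
      obtain ⟨c, hc⟩ := hpo
      have : (3 * (a' + a') ^ 2 + 5 * (b' + b') ^ 2) = 2 * (6 * a' ^ 2 + 10 * b' ^ 2) := by ring
      omega
    · rw [one_mul, one_mul]; exact ha.add_odd hb
    · rw [one_mul, one_mul]; exact ha.add_even hb
    · exfalso
      obtain ⟨a', rfl⟩ := ha; obtain ⟨b', rfl⟩ := hb
      obtain ⟨c, hc⟩ := hpo
      have : (3 * (2 * a' + 1) ^ 2 + 5 * (2 * b' + 1) ^ 2)
          = 2 * (6 * a' ^ 2 + 6 * a' + 10 * b' ^ 2 + 10 * b' + 4) := by ring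
      omega
  have hqA : q (12 - 3 * f) ^ p = (((-1 : ℤ)) : k) * q (-(9 + 3 * f)) := by
    have e1 : q (12 - 3 * f) ^ p = frobenius k p (q (12 - 3 * f)) := rfl
    have e2 : frobenius k p (q f) = q f ^ p := rfl
    rw [e1, map_sub, map_mul, map_ofNat, map_ofNat, map_sub, map_mul, map_ofNat, map_ofNat, e2, hqf, map_neg, map_add,
      map_mul, map_ofNat, map_ofNat]
    push_cast
    ring
  have T := hTW R k p m q hL (by omega) hpm (12 - 3 * f) (-(9 + 3 * f)) ((2 * f - 1) * v) (v * f) (2 + f)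
    (v * (1 - f)) ((f - 1) * ((2 * f - 1) * b - v * a)) 48 (-1) 3 5 1 1 1 1 1 (-1) a b y w
  rw [h48] at T
  have pR : (p : R) = 3 * (a : R) ^ 2 + 5 * (b : R) ^ 2 := by
    have := congrArg (fun n : ℤ => (n : R)) hab
    push_cast at this
    exact this
  have T2 := T hy hw n48 hA hA' (by norm_num) (by norm_num) ?_ K1 K2 K3 K4 (by norm_num) (by norm_num) ?_ ?_ R2 R3
    (by push_cast; exact hab) hodd ?_ ?_ (by norm_num) hqA hA0
  · obtain ⟨z, hz'⟩ := T2
    refine ⟨z, ?_⟩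
    rw [hz']
    push_cast
    ring
  · push_cast
    linear_combination 4 * v ^ 2 * hf + 5 * hv
  · push_cast
    linear_combination (-(v ^ 2)) * hf + (-1 : R) * hv
  · push_cast
    linear_combination (-v) * hf
  · rw [pR]
    linear_combination ((9 + 4 * (f ^ 2 - f - 1)) * (b : R) ^ 2 + 3 * (a : R) ^ 2 - (a : R) ^ 2 * (v ^ 2 + 3)
      - 2 * b * (f - 1) * ((2 * f - 1) * b - v * a)) * hf - (a : R) ^ 2 * hv
  · have : (a : R) * (v * f) + b * (2 + f) = f * (v * a + (2 * f - 1) * b) := by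
      linear_combination (-(2 * (b : R))) * hf
    rw [this, map_mul, hq0, mul_zero]

end Pool.Agent.helper60.DB
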